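import Pool.Agent.V11311.BW.D

/-! Residues and leading digits in short windows, part E: uniformity. -/

set_option autoImplicit false

namespace Pool.Agent.V11311.BW

open Finset Filter Topology Pool.Agent.V11311.FP Pool.Agent.V11311.RC Pool.Agent.V11311.ER

open Pool.Agent.Helper894.Collatz (T)

open Pool.Agent.W38.BF (PP)

theorem Wi.true : Wi (fun _ _ => True) :=
  ⟨1, one_pos, fun _ _ => hasD_mono_one HasD_true fun _ _ _ _ _ _ _ => trivial⟩

theorem Wi.finset {ι : Type*} (S : Finset ι) (Q : ι → ℕ → ℕ → Prop) (h : ∀ i ∈ S, Wi (Q i)) :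
    Wi (fun w m => ∀ i ∈ S, Q i w m) := by
  classical
  induction S using Finset.induction_on with
  | empty => exact Wi.true.mono fun w m _ _ i hi => by simp at hi
  | insert a S ha ih =>
    refine ((h a (mem_insert_self _ _)).and (ih fun i hi => h i (mem_insert_of_mem hi))).mono fun w m _ g i hi => ?_
    rcases mem_insert.1 hi with rfl | hi
    · exact g.1
    · exact g.2 i hi

theorem NX_mono {M r : ℕ} {B b b' : ℝ} (h : b ≤ b') (w m : ℕ) : NX M r B 0 b w m ≤ NX M r B 0 b' w m := by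
  unfold NX
  apply card_le_card
  intro s hs
  rw [mem_filter] at hs ⊢
  exact ⟨hs.1, hs.2.1, hs.2.2.1, lt_of_lt_of_le hs.2.2.2 h⟩

theorem NX_split {M r : ℕ} {B a b : ℝ} (ha : 0 ≤ a) (h : a ≤ b) (w m : ℕ) :
    NX M r B 0 b w m = NX M r B 0 a w m + NX M r B a b w m := by
  unfold NX
  rw [← card_union_of_disjoint]
  · congr 1
    ext s
    simp only [mem_union, mem_filter]
    constructor
    · rintro ⟨h1, h2, h3, h4⟩
      by_cases h5 : Int.fract (Real.logb B (T^[s] m : ℕ)) < a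
      · exact Or.inl ⟨h1, h2, h3, h5⟩
      · exact Or.inr ⟨h1, h2, not_lt.1 h5, h4⟩
    · rintro (⟨h1, h2, h3, h4⟩ | ⟨h1, h2, h3, h4⟩)
      · exact ⟨h1, h2, h3, lt_of_lt_of_le h4 h⟩
      · exact ⟨h1, h2, ha.trans h3, h4⟩
  · rw [disjoint_filter]
    rintro s _ ⟨_, _, h5⟩ ⟨_, h6, _⟩
    linarith

theorem unif_wi {M : ℕ} [NeZero M] {B : ℝ} (hB : 1 < B) {p : ℕ → ℝ} (hp0 : ∀ r < M, 0 ≤ p r) (hp1 : ∀ r < M, p r ≤ 1)
    (hg : ∀ r < M, ∃ g : ZMod M → ℂ, ∀ x, (if x = ((r : ℕ) : ZMod M) then (1 : ℂ) else 0) =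
      (p r : ℂ) + (g x - PP M (fun _ => 1) g x)) {ε : ℝ} (hε : 0 < ε) :
    Wi (fun w m => ∀ r, r < M → ∀ a b : ℝ, 0 ≤ a → a ≤ b → b ≤ 1 →
      |(NX M r B a b w m : ℝ) - (b - a) * p r * w| ≤ ε * w) := by
  obtain ⟨K, hK⟩ := exists_nat_gt (4 / ε)
  have hK0 : (0 : ℝ) < K := lt_trans (by positivity) hK
  have hKε : 1 / (K : ℝ) ≤ ε / 4 := by
    rw [div_le_div_iff₀ hK0 (by norm_num)]
    rw [div_lt_iff₀ hε] at hK
    linarith
  have hfin := Wi.finset (range M ×ˢ range (K + 1))
    (fun q w m => |(NX M q.1 B 0 ((q.2 : ℝ) / K) w m : ℝ) - ((q.2 : ℝ) / K) * p q.1 * w| ≤ ε / 4 * w)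
    (fun q hq => by
      rw [mem_product, mem_range, mem_range] at hq
      obtain ⟨g, hg'⟩ := hg q.1 hq.1
      have hq2 : (q.2 : ℝ) ≤ K := by
        have : q.2 ≤ K := by omega
        exact_mod_cast this
      exact main_wi hB hq.1 (hp0 _ hq.1) (hp1 _ hq.1) hg' (by positivity) (by rw [div_le_one hK0]; exact hq2) (by positivity))
  refine hfin.mono fun w m hm h r hr => ?_
  have hw0 : (0 : ℝ) ≤ w := Nat.cast_nonneg _
  have hpw : p r * w ≤ w := by
    calc p r * w ≤ 1 * w := mul_le_mul_of_nonneg_right (hp1 r hr) hw0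
      _ = w := one_mul _
  have hpw0 : 0 ≤ p r * w := mul_nonneg (hp0 r hr) hw0
  have hD : ∀ b : ℝ, 0 ≤ b → b ≤ 1 → |(NX M r B 0 b w m : ℝ) - b * p r * w| ≤ ε / 2 * w := by
    intro b hb0 hb1
    set k := ⌊b * K⌋₊ with hk
    have hk1 : (k : ℝ) ≤ b * K := Nat.floor_le (by positivity)
    have hk2 : b * K < k + 1 := Nat.lt_floor_add_one _
    have hkK : k ≤ K := by
      have : (k : ℝ) ≤ K := hk1.trans (by nlinarith)
      exact_mod_cast this
    have g1 := abs_le.1 (h (r, k) (mem_product.2 ⟨mem_range.2 hr, mem_range.2 (by omega)⟩))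
    simp only at g1
    have hb1' : (k : ℝ) / K ≤ b := by rwa [div_le_iff₀ hK0]
    have hb2' : b ≤ (k : ℝ) / K + 1 / K := by
      rw [← add_div, le_div_iff₀ hK0]
      exact hk2.le
    have m1 : (NX M r B 0 ((k : ℝ) / K) w m : ℝ) ≤ NX M r B 0 b w m := by exact_mod_cast NX_mono hb1' w m
    have s1 : b * (p r * w) ≤ ((k : ℝ) / K + 1 / K) * (p r * w) := mul_le_mul_of_nonneg_right hb2' hpw0
    have s2 : 1 / (K : ℝ) * (p r * w) ≤ ε / 4 * w :=
      mul_le_mul hKε hpw hpw0 (by positivity)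
    rw [abs_le]
    constructor
    · have : b * p r * w = b * (p r * w) := by ring
      rw [this]
      have e2 : ((k : ℝ) / K) * p r * w = (k : ℝ) / K * (p r * w) := by ring
      rw [e2] at g1
      linarith [g1.1]
    · rcases Nat.lt_or_ge k K with h5 | h5
      · have g2 := abs_le.1 (h (r, k + 1) (mem_product.2 ⟨mem_range.2 hr, mem_range.2 (by omega)⟩))
        simp only at g2
        have hb3 : b ≤ ((k + 1 : ℕ) : ℝ) / K := by
          push_cast
          rw [add_div]
          exact hb2'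
        have m2 : (NX M r B 0 b w m : ℝ) ≤ NX M r B 0 (((k + 1 : ℕ) : ℝ) / K) w m := by exact_mod_cast NX_mono hb3 w m
        have e2 : (((k + 1 : ℕ) : ℝ) / K) * p r * w = (k : ℝ) / K * (p r * w) + 1 / K * (p r * w) := by
          push_cast
          ring
        rw [e2] at g2
        have s3 : (k : ℝ) / K * (p r * w) ≤ b * (p r * w) := mul_le_mul_of_nonneg_right hb1' hpw0
        have : b * p r * w = b * (p r * w) := by ring
        rw [this]
        linarith [g2.2]
      · have hkK' : k = K := le_antisymm hkK h5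
        have hb1'' : b = (k : ℝ) / K := by
          rw [hkK', div_self hK0.ne']
          apply le_antisymm hb1
          rw [hkK', div_self hK0.ne'] at hb1'
          exact hb1'
        rw [← hb1''] at g1
        have : 0 ≤ ε * w := by positivity
        linarith [g1.2]
  intro a b ha hab hb
  have h1 := abs_le.1 (hD a ha (hab.trans hb))
  have h2 := abs_le.1 (hD b (ha.trans hab) hb)
  have h3 : (NX M r B 0 b w m : ℝ) = NX M r B 0 a w m + NX M r B a b w m := by
    exact_mod_cast NX_split ha hab w m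
  rw [abs_le]
  have e1 : (b - a) * p r * w = b * p r * w - a * p r * w := by ring
  rw [e1]
  constructor
  · linarith [h1.1, h1.2, h2.1, h2.2]
  · linarith [h1.1, h1.2, h2.1, h2.2]

end Pool.Agent.V11311.BW
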