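import Pool.Agent.V11311.ER.M

/-! Residues and leading digits in short windows, part A: rare classes modulo `M * 2 ^ d`. -/

set_option autoImplicit false

namespace Pool.Agent.V11311.BW

open Finset Filter Topology Pool.Agent.V11311.FP Pool.Agent.V11311.RC Pool.Agent.V11311.SL Pool.Agent.V11311.ER

open Pool.Agent.V11311.DV (fl fl_card mem_fl)

open Pool.Agent.Helper894.Collatz (T od er od_add iter_eq sum_pow_od period)

open Pool.Agent.H377R2 (iter_pos)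

theorem cN_per_le {Q N : ℕ} (P : ℕ → Prop) (hQ : 0 < Q) (hP : Per Q P) (hN : Q ≤ N) :
    (cN P N : ℝ) ≤ 2 * N * prq Q P := by
  classical
  have h1 : cN P N ≤ cN P (Q * (N / Q + 1)) := by
    apply cN_le_of_le
    rw [mul_add, mul_one]
    have := Nat.mod_add_div N Q
    have h2 := Nat.mod_lt N hQ
    omega
  rw [cN_period P hP] at h1
  have h2 : (cN P N : ℝ) ≤ (((N / Q : ℕ) : ℝ) + 1) * ((range Q).filter P).card := by exact_mod_cast h1
  refine h2.trans ?_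
  rw [prq_eq]
  have hQ0 : (0 : ℝ) < Q := by exact_mod_cast hQ
  have h3 : ((N / Q : ℕ) : ℝ) ≤ N / Q := Nat.cast_div_le
  have h4 : (1 : ℝ) ≤ N / Q := by
    rw [one_le_div hQ0]
    exact_mod_cast hN
  have h5 : (0 : ℝ) ≤ ((range Q).filter P).card := Nat.cast_nonneg _
  calc (((N / Q : ℕ) : ℝ) + 1) * ((range Q).filter P).card
      ≤ (N / Q + N / Q) * ((range Q).filter P).card :=
        mul_le_mul_of_nonneg_right (by linarith) h5
    _ = 2 * N * (((range Q).filter P).card / Q) := by ring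

/-- the union over the residues modulo the power of three -/
def Pj (R Q : ℕ) (A : ℕ → Prop) (x : ℕ) : Prop := ∃ y, y < R * Q ∧ A y ∧ y % Q = x % Q

theorem Pj_per (R Q : ℕ) (A : ℕ → Prop) : Per Q (Pj R Q A) := by
  intro x
  unfold Pj
  rw [Nat.mod_mod]

theorem Pj_of {R Q : ℕ} (hR : 0 < R) (hQ : 0 < Q) {A : ℕ → Prop} (hA : Per (R * Q) A) {x : ℕ} (h : A x) : Pj R Q A x := by
  refine ⟨x % (R * Q), Nat.mod_lt _ (by positivity), (hA x).2 h, ?_⟩
  exact Nat.mod_mul_left_mod x R Q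

theorem Pj_prq {R Q : ℕ} (hR : 0 < R) (hQ : 0 < Q) (A : ℕ → Prop) : prq Q (Pj R Q A) ≤ R * prq (R * Q) A := by
  classical
  rw [prq_eq, prq_eq]
  have h1 : ((range Q).filter (Pj R Q A)).card ≤ ((range (R * Q)).filter A).card := by
    refine (card_le_card (t := ((range (R * Q)).filter A).image (fun y => y % Q)) fun x hx => ?_).trans card_image_le
    rw [mem_filter, mem_range] at hx
    obtain ⟨hx, y, h1, h2, h3⟩ := hx
    rw [mem_image]
    refine ⟨y, mem_filter.2 ⟨mem_range.2 h1, h2⟩, ?_⟩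
    rw [h3, Nat.mod_eq_of_lt hx]
  have h2 : (((range Q).filter (Pj R Q A)).card : ℝ) ≤ ((range (R * Q)).filter A).card := by exact_mod_cast h1
  have hR0 : (0 : ℝ) < R := by exact_mod_cast hR
  have hQ0 : (0 : ℝ) < Q := by exact_mod_cast hQ
  push_cast
  calc (((range Q).filter (Pj R Q A)).card : ℝ) / Q ≤ ((range (R * Q)).filter A).card / Q :=
        div_le_div_of_nonneg_right h2 hQ0.le
    _ = R * (((range (R * Q)).filter A).card / (R * Q)) := by field_simp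

theorem cN_shiftM {M i d N : ℕ} (hM : 0 < M) {A : ℕ → Prop} (hA : Per (M * 2 ^ d) A) (hN : M * 2 ^ (i + d) ≤ N) :
    (cN (fun n => A (T^[i] n)) N : ℝ) ≤ 2 * N * (M * prq (M * 2 ^ d) A) := by
  obtain ⟨a, M', h3, rfl⟩ := Nat.exists_eq_pow_mul_and_not_dvd hM.ne' 3 (by norm_num)
  have hM'0 : 0 < M' := Nat.pos_of_ne_zero (by rintro rfl; simp at hM)
  have h3' : Nat.Coprime M' 3 := (Nat.Coprime.symm ((Nat.Prime.coprime_iff_not_dvd (by norm_num)).2 h3))
  have e0 : 3 ^ a * M' * 2 ^ d = 3 ^ a * (M' * 2 ^ d) := by ring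
  rw [e0] at hA ⊢
  have hQ0 : 0 < M' * 2 ^ d := by positivity
  have hcop : Nat.Coprime (M' * 2 ^ d) 3 := Nat.Coprime.mul_left h3' (Nat.Coprime.pow_left _ (by norm_num))
  have hPer := Per.and_iter (j := i) (A := fun _ => True) (fun _ => Iff.rfl) (Pj_per (3 ^ a) (M' * 2 ^ d) A)
  have hpr := prod_prq (j := i) (A := fun _ => True) hQ0 hcop (fun _ => Iff.rfl) (Pj_per (3 ^ a) (M' * 2 ^ d) A)
  simp only [true_and] at hPer hpr
  rw [Pool.Agent.V11311.ER.prq_true (by positivity), one_mul] at hpr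
  have h1 : (cN (fun n => A (T^[i] n)) N : ℝ) ≤ cN (fun n => Pj (3 ^ a) (M' * 2 ^ d) A (T^[i] n)) N := by
    exact_mod_cast cN_mono (fun n _ h => Pj_of (by positivity) hQ0 hA h) N
  have hN' : 2 ^ i * (M' * 2 ^ d) ≤ N := by
    refine le_trans ?_ hN
    have : 2 ^ i * (M' * 2 ^ d) ≤ 3 ^ a * (2 ^ i * (M' * 2 ^ d)) := Nat.le_mul_of_pos_left _ (by positivity)
    refine this.trans (le_of_eq ?_)
    rw [pow_add]
    ring
  refine h1.trans ((cN_per_le _ (by positivity) hPer hN').trans ?_)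
  rw [hpr]
  apply mul_le_mul_of_nonneg_left _ (by positivity)
  refine (Pj_prq (by positivity) hQ0 A).trans ?_
  apply mul_le_mul_of_nonneg_right _ (prq_nonneg _ _)
  push_cast
  have : (1 : ℝ) ≤ M' := by exact_mod_cast hM'0
  nlinarith [pow_pos (show (0 : ℝ) < 3 by norm_num) a]

/-- a criterion for rare patterns modulo `M * 2 ^ d` of length `o(log N)` -/
theorem St_rareM {M : ℕ} (hM : 0 < M) {ι : Type*} (P : ℕ → ℕ → Prop) (S : ℕ → Finset ι) (len : ℕ → ι → ℕ) (A : ℕ → ι → ℕ → Prop)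
    (hper : ∀ N p, Per (M * 2 ^ len N p) (A N p))
    (hlen : ∀ κ : ℝ, 0 < κ → ∀ᶠ N : ℕ in atTop, ∀ p ∈ S N, (2 : ℝ) ^ len N p ≤ (N : ℝ) ^ κ)
    (hPA : ∀ᶠ N : ℕ in atTop, ∀ m : ℕ, P N m → ∃ p ∈ S N, A N p m)
    (hsum : Tendsto (fun N : ℕ => Real.log N * ∑ p ∈ S N, prq (M * 2 ^ len N p) (A N p)) atTop (𝓝 0))
    {κ : ℝ} (hκ : 0 < κ) (ε : ℝ) (hε : 0 < ε) :
    ∀ᶠ N : ℕ in atTop, (cN (St P N (Lv κ N)) N : ℝ) ≤ ε * N := by
  classical
  have hM0 : (0 : ℝ) < M := by exact_mod_cast hM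
  refine rare (St P) (St_mono P) (St_dec P) (St_ext P) ?_ hκ ε hε
  intro κ hκ ε hε
  obtain ⟨N0, hN0⟩ := eventually_atTop.1 (descend (ε / 2) (by positivity))
  have e2 := (tendsto_rpow_atTop hκ).eventually (eventually_ge_atTop ((N0 : ℝ) + 1))
  have e4 := (tendsto_rpow_atTop (show 0 < κ * 0.15 by positivity)).eventually (eventually_ge_atTop (M : ℝ))
  have e3 := hsum.eventually (gt_mem_nhds (show (0 : ℝ) < ε / (4 * M) by positivity))
  filter_upwards [tendsto_natCast_atTop_atTop.eventually (e2.and (e4.and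
    (Real.tendsto_log_atTop.eventually (eventually_ge_atTop (3 : ℝ))))), e3, hlen (κ / 2) (by positivity), hPA,
    eventually_ge_atTop 1] with N h1 h2 h3 h4 h5 N' hN1 hN2
  obtain ⟨f2, f4, f3⟩ := h1
  have hNR : (1 : ℝ) ≤ N := by exact_mod_cast h5
  have hN'0 : N0 ≤ N' ∧ 1 ≤ N' := by
    have g1 : ((N0 + 1 : ℕ) : ℝ) ≤ N' := by
      push_cast
      linarith
    have g2 : N0 + 1 ≤ N' := by exact_mod_cast g1
    omega
  have hN'R : (1 : ℝ) ≤ N' := by exact_mod_cast hN'0.2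
  have g1 := hN0 N' hN'0.1
  obtain ⟨j1, j2, j3, j4⟩ := JH_facts hN'0.2
  set Λ := Real.log N with hΛ
  have hΛ0 : 0 < Λ := by linarith
  have hN'half : (N : ℝ) ^ (κ / 2) ≤ (N' : ℝ) ^ (1 / 2 : ℝ) := by
    calc (N : ℝ) ^ (κ / 2) = ((N : ℝ) ^ κ) ^ (1 / 2 : ℝ) := by
          rw [← Real.rpow_mul (by linarith)]
          congr 1
          ring
      _ ≤ _ := Real.rpow_le_rpow (by positivity) hN1 (by norm_num)
  have hMN' : (M : ℝ) ≤ (N' : ℝ) ^ (0.15 : ℝ) := by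
    calc (M : ℝ) ≤ (N : ℝ) ^ (κ * 0.15) := f4
      _ = ((N : ℝ) ^ κ) ^ (0.15 : ℝ) := by rw [← Real.rpow_mul (by linarith)]
      _ ≤ _ := Real.rpow_le_rpow (by positivity) hN1 (by norm_num)
  have hlog : Real.log N' ≤ Λ := Real.log_le_log (by linarith) (by exact_mod_cast hN2)
  -- powers of two
  have hlen2 : ∀ p ∈ S N, (2 : ℝ) ^ len N p ≤ (N' : ℝ) ^ (1 / 2 : ℝ) := fun p hp => (h3 p hp).trans hN'half
  have hJlen : ∀ p ∈ S N, ∀ s ∈ range (JH N'), M * 2 ^ (s + len N p) ≤ N' := by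
    intro p hp s hs
    rw [mem_range] at hs
    have k1 : ((M : ℝ) * (2 : ℝ) ^ (s + len N p)) ≤ N' := by
      rw [pow_add]
      calc (M : ℝ) * ((2 : ℝ) ^ s * 2 ^ len N p) ≤ (N' : ℝ) ^ (0.15 : ℝ) * (2 ^ JH N' * 2 ^ len N p) := by
            apply mul_le_mul hMN' _ (by positivity) (by positivity)
            exact mul_le_mul_of_nonneg_right (pow_le_pow_right₀ (by norm_num) hs.le) (by positivity)
        _ ≤ (N' : ℝ) ^ (0.15 : ℝ) * ((N' : ℝ) ^ (0.35 : ℝ) * (N' : ℝ) ^ (1 / 2 : ℝ)) := by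
            apply mul_le_mul_of_nonneg_left _ (by positivity)
            exact mul_le_mul j3 (hlen2 p hp) (by positivity) (by positivity)
        _ = (N' : ℝ) ^ (1 : ℝ) := by
            rw [← Real.rpow_add (by linarith), ← Real.rpow_add (by linarith)]
            norm_num
        _ = N' := Real.rpow_one _
    exact_mod_cast k1
  have k1 : (cN (St P N ⌊(N' : ℝ) ^ (0.99 : ℝ)⌋₊) N' : ℝ) ≤
      cN (fun n => ⌊(N' : ℝ) ^ (0.99 : ℝ)⌋₊ < T^[JH N'] n ∧ n ≤ N') N' +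
      (cN (fun n => ∃ q ∈ range (JH N') ×ˢ S N, A N q.2 (T^[q.1] n)) N' +
       cN (fun _ => False) N') := by
    apply cN_or3
    intro n hn hnN hst
    obtain ⟨s, hs1, hs2⟩ := hst
    by_cases hsJ : JH N' ≤ s
    · exact Or.inl ⟨hs1 _ hsJ, hnN⟩
    · right; left
      obtain ⟨p, hp1, hp2⟩ := h4 _ hs2
      exact ⟨(s, p), mem_product.2 ⟨mem_range.2 (not_le.1 hsJ), hp1⟩, hp2⟩
  have k2 : (cN (fun _ => False) N' : ℝ) = 0 := by
    rw [← fl_card]
    have : fl (fun _ => False) N' = ∅ := by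
      ext n
      rw [mem_fl]
      simp
    rw [this]
    simp
  have k3 := cN_union (range (JH N') ×ˢ S N) (fun n => ∃ q ∈ range (JH N') ×ˢ S N, A N q.2 (T^[q.1] n))
    (fun q n => A N q.2 (T^[q.1] n)) N' (fun n _ _ h => h)
  have k4 : ∑ q ∈ range (JH N') ×ˢ S N, (cN (fun n => A N q.2 (T^[q.1] n)) N' : ℝ) ≤
      JH N' * (2 * N' * (M * ∑ p ∈ S N, prq (M * 2 ^ len N p) (A N p))) := by
    calc _ ≤ ∑ q ∈ range (JH N') ×ˢ S N, 2 * (N' : ℝ) * (M * prq (M * 2 ^ len N q.2) (A N q.2)) := by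
          refine sum_le_sum fun q hq => ?_
          rw [mem_product] at hq
          exact cN_shiftM hM (hper N q.2) (hJlen q.2 hq.2 q.1 hq.1)
      _ = _ := by
          have m1 : ∀ x ∈ range (JH N'), ∑ y ∈ S N, 2 * (N' : ℝ) * (M * prq (M * 2 ^ len N y) (A N y)) =
              2 * N' * (M * ∑ p ∈ S N, prq (M * 2 ^ len N p) (A N p)) := fun _ _ => by rw [mul_sum, mul_sum]
          rw [sum_product, sum_congr rfl m1, sum_const, card_range, nsmul_eq_mul]
  have hs0 : 0 ≤ ∑ p ∈ S N, prq (M * 2 ^ len N p) (A N p) := sum_nonneg fun p _ => prq_nonneg _ _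
  have k5 : (JH N' : ℝ) * (2 * N' * (M * ∑ p ∈ S N, prq (M * 2 ^ len N p) (A N p))) ≤ ε / 2 * N' := by
    have m1 : (JH N' : ℝ) ≤ Λ := by linarith
    calc (JH N' : ℝ) * (2 * N' * (M * ∑ p ∈ S N, prq (M * 2 ^ len N p) (A N p)))
        ≤ Λ * (2 * N' * (M * ∑ p ∈ S N, prq (M * 2 ^ len N p) (A N p))) := mul_le_mul_of_nonneg_right m1 (by positivity)
      _ = 2 * N' * M * (Λ * ∑ p ∈ S N, prq (M * 2 ^ len N p) (A N p)) := by ring
      _ ≤ 2 * N' * M * (ε / (4 * M)) := mul_le_mul_of_nonneg_left h2.le (by positivity)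
      _ = ε / 2 * N' := by
          field_simp
          ring
  linarith

end Pool.Agent.V11311.BW
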