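import Pool.Agent.V11311.BW.A
import Pool.Agent.V11311.ER.K
import Pool.Agent.W38.BFg

/-! Residues and leading digits in short windows, part B: large deviations. -/

set_option autoImplicit false

namespace Pool.Agent.V11311.BW

open Finset Filter Topology Pool.Agent.V11311.FP Pool.Agent.V11311.RC Pool.Agent.V11311.SL Pool.Agent.V11311.ER

open Pool.Agent.V11311.DV (fl fl_card mem_fl)

open Pool.Agent.Helper894.Collatz (T od er od_add iter_eq sum_pow_od period)

open Pool.Agent.H377R2 (iter_pos)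

open Pool.Agent.W38.BF (WN WN_period WN_smul card_dev phase_cmp PP)

/-- sums over windows -/
noncomputable def Sw (G : ℕ → ℂ) (w m : ℕ) : ℂ := ∑ j ∈ range w, G (T^[j] m)

theorem Sw_add (G : ℕ → ℂ) (u v m : ℕ) : Sw G (u + v) m = Sw G u m + Sw G v (T^[u] m) := by
  unfold Sw
  rw [sum_range_add]
  congr 1
  apply sum_congr rfl
  intro j _
  rw [add_comm u j, Function.iterate_add_apply]

/-- long windows consist of windows of the lengths in `[W, 2 W)` -/
theorem pieces {G : ℕ → ℂ} {η : ℝ} {W n : ℕ} (hW : 0 < W) (w : ℕ) : ∀ s : ℕ, W ≤ w →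
    (∀ s' d, s ≤ s' → s' + d ≤ s + w → W ≤ d → d < 2 * W → ‖Sw G d (T^[s'] n)‖ ≤ η * d) →
    ‖Sw G w (T^[s] n)‖ ≤ η * w := by
  induction w using Nat.strong_induction_on with
  | _ w ih =>
    intro s hw h
    rcases Nat.lt_or_ge w (2 * W) with h1 | h1
    · exact h s w le_rfl le_rfl hw h1
    · obtain ⟨v, rfl⟩ := Nat.exists_eq_add_of_le hw
      rw [Sw_add]
      refine (norm_add_le _ _).trans ?_
      have h2 := h s W le_rfl (by omega) le_rfl (by omega)
      have h3 := ih v (by omega) (s + W) (by omega) (fun s' d g1 g2 g3 g4 => h s' d (by omega) (by omega) g3 g4)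
      rw [add_comm s W, Function.iterate_add_apply] at h3
      push_cast
      linarith

variable {M : ℕ} [NeZero M]

/-- the events -/
def Ev (f : ZMod M → ℂ) (c : ℕ → ℂ) (η : ℝ) (d y : ℕ) : Prop := η * d < ‖WN f c d y 1‖

theorem Ev_per (f : ZMod M → ℂ) (c : ℕ → ℂ) (η : ℝ) (d : ℕ) : Per (M * 2 ^ d) (Ev f c η d) := by
  intro x
  have h1 : x = x % (M * 2 ^ d) + 2 ^ d * (M * (x / (M * 2 ^ d))) := by
    conv_lhs => rw [← Nat.mod_add_div x (M * 2 ^ d)]
    ring
  unfold Ev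
  have h2 : WN f c d x 1 = WN f c d (x % (M * 2 ^ d)) 1 := by
    conv_lhs => rw [h1]
    exact WN_period f c d _ _ _
  rw [h2]

theorem Ev_prq {f g : ZMod M → ℂ} {c : ℕ → ℂ} (hc : ∀ b, ‖c b‖ = 1) {C η : ℝ} (hC : 0 < C)
    (hη : 0 < η) (hg : ∀ x, ‖g x‖ ≤ C) (hfg : ∀ x, f x = g x - PP M c g x) (d : ℕ) :
    prq (M * 2 ^ d) (Ev f c η d) ≤ 4 * Real.exp (η / C - η ^ 2 / (8 * C ^ 2) * d) := by
  classical
  have h1 := card_dev hc hC hη hg hfg d
  have hM : (0 : ℝ) < M := by
    have := Nat.pos_of_ne_zero (NeZero.ne M)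
    exact_mod_cast this
  rw [prq_eq]
  push_cast
  rw [div_le_iff₀ (by positivity)]
  have h2 : ((range (M * 2 ^ d)).filter (Ev f c η d)).card = ((range (M * 2 ^ d)).filter (fun y => η * d < ‖WN f c d y 1‖)).card := by
    congr 1
  rw [h2]
  refine h1.trans (le_of_eq ?_)
  ring

/-- the shortest length -/
noncomputable def Wl (b : ℝ) (N : ℕ) : ℕ := ⌈b * Real.log (Real.log N)⌉₊

theorem ev_rare {f g : ZMod M → ℂ} {c : ℕ → ℂ} (hc : ∀ b, ‖c b‖ = 1) {C η b : ℝ} (hC : 0 < C)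
    (hη : 0 < η) (hg : ∀ x, ‖g x‖ ≤ C) (hfg : ∀ x, f x = g x - PP M c g x) (hb : b = 16 * C ^ 2 / η ^ 2)
    {κ : ℝ} (hκ : 0 < κ) (ε : ℝ) (hε : 0 < ε) :
    ∀ᶠ N : ℕ in atTop, (cN (St (fun N m => ∃ d ∈ Ico (Wl b N) (2 * Wl b N), Ev f c η d m) N (Lv κ N)) N : ℝ) ≤ ε * N := by
  have hb0 : 0 < b := by rw [hb]; positivity
  have hlog : Tendsto (fun N : ℕ => Real.log (N : ℝ)) atTop atTop :=
    Real.tendsto_log_atTop.comp tendsto_natCast_atTop_atTop
  have hM0 : 0 < M := Nat.pos_of_ne_zero (NeZero.ne M)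
  refine St_rareM hM0 (ι := ℕ) _ (fun N => Ico (Wl b N) (2 * Wl b N)) (fun _ d => d) (fun _ d y => Ev f c η d y)
    (fun _ d => Ev_per f c η d) ?_ ?_ ?_ hκ ε hε
  · intro κ' hκ'
    have e1 : ∀ᶠ X : ℝ in atTop, 2 * (b * Real.log X + 1) ≤ κ' * X := by
      have h1 : ∀ᶠ X : ℝ in atTop, ‖Real.log X‖ ≤ (κ' / (4 * b)) * ‖X‖ :=
        (Real.isLittleO_log_id_atTop).bound (by positivity)
      filter_upwards [h1, eventually_ge_atTop (1 : ℝ), eventually_ge_atTop (4 / κ')] with X h1 h2 h3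
      rw [Real.norm_of_nonneg (Real.log_nonneg h2), Real.norm_of_nonneg (by linarith)] at h1
      rw [div_le_iff₀ hκ'] at h3
      have h4 : b * Real.log X ≤ b * (κ' / (4 * b) * X) := mul_le_mul_of_nonneg_left h1 hb0.le
      have h5 : b * (κ' / (4 * b) * X) = κ' / 4 * X := by field_simp
      linarith
    filter_upwards [hlog.eventually (e1.and (eventually_ge_atTop (3 : ℝ))), ll_tendsto.eventually (eventually_ge_atTop (1 : ℝ))]
      with N h1 h4 d hd
    obtain ⟨h1, h2⟩ := h1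
    rw [mem_Ico] at hd
    have hN0 : (0 : ℝ) < N := by
      by_contra hcon
      push Not at hcon
      have : (N : ℝ) = 0 := le_antisymm hcon (Nat.cast_nonneg _)
      rw [this, Real.log_zero] at h2
      norm_num at h2
    have h3 : (d : ℝ) ≤ 2 * (b * Real.log (Real.log N) + 1) := by
      have g1 : (d : ℝ) < 2 * (Wl b N : ℕ) := by exact_mod_cast hd.2
      have g2 := Nat.ceil_lt_add_one (show 0 ≤ b * Real.log (Real.log N) by positivity)
      unfold Wl at g1
      linarith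
    calc (2 : ℝ) ^ d = Real.exp (d * Real.log 2) := by
          rw [Real.exp_nat_mul, Real.exp_log (by norm_num)]
      _ ≤ Real.exp (Real.log N * κ') := by
          apply Real.exp_le_exp.2
          have hl2 : Real.log 2 < 1 := by have := Real.log_two_lt_d9; linarith
          have hl2' : 0 < Real.log 2 := Real.log_pos (by norm_num)
          have m0 : (0 : ℝ) ≤ (d : ℝ) := Nat.cast_nonneg _
          nlinarith
      _ = (N : ℝ) ^ κ' := by rw [Real.rpow_def_of_pos hN0]
  · filter_upwards with N m hm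
    exact hm
  · have e1 : ∀ᶠ X : ℝ in atTop, b * Real.log X + 1 ≤ X ^ (1 / 2 : ℝ) := by
      have h1 : ∀ᶠ X : ℝ in atTop, ‖Real.log X‖ ≤ (1 / (2 * b)) * ‖X ^ (1 / 2 : ℝ)‖ :=
        (isLittleO_log_rpow_atTop (by norm_num : (0 : ℝ) < 1 / 2)).bound (by positivity)
      have h2 : ∀ᶠ X : ℝ in atTop, 2 ≤ X ^ (1 / 2 : ℝ) :=
        (tendsto_rpow_atTop (by norm_num)).eventually (eventually_ge_atTop _)
      filter_upwards [h1, h2, eventually_ge_atTop (1 : ℝ)] with X h1 h2 h3
      rw [Real.norm_of_nonneg (Real.log_nonneg h3), Real.norm_of_nonneg (by positivity)] at h1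
      have h4 : b * Real.log X ≤ b * (1 / (2 * b) * X ^ (1 / 2 : ℝ)) := mul_le_mul_of_nonneg_left h1 hb0.le
      have h5 : b * (1 / (2 * b) * X ^ (1 / 2 : ℝ)) = X ^ (1 / 2 : ℝ) / 2 := by field_simp
      linarith
    have h1 : Tendsto (fun N : ℕ => (4 * Real.exp (η / C)) * (Real.log N) ^ (-(1 / 2 : ℝ))) atTop (𝓝 0) := by
      have h2 := (tendsto_rpow_neg_atTop (by norm_num : (0 : ℝ) < 1 / 2)).comp hlog
      have h3 := h2.const_mul (4 * Real.exp (η / C))
      rw [mul_zero] at h3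
      exact h3
    refine squeeze_zero' ?_ ?_ h1
    · filter_upwards with N
      exact mul_nonneg (Real.log_natCast_nonneg N) (sum_nonneg fun p _ => prq_nonneg _ _)
    · filter_upwards [hlog.eventually (e1.and (eventually_ge_atTop (3 : ℝ))), ll_tendsto.eventually (eventually_ge_atTop (1 : ℝ))]
        with N h2 h4
      obtain ⟨f1, f2⟩ := h2
      set Λ := Real.log N with hΛ
      have hΛ0 : 0 < Λ := by linarith
      have hW1 : b * Real.log Λ ≤ Wl b N := Nat.le_ceil _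
      have hW2 : (Wl b N : ℝ) ≤ Λ ^ (1 / 2 : ℝ) := by
        have g2 := Nat.ceil_lt_add_one (show 0 ≤ b * Real.log Λ by positivity)
        unfold Wl
        rw [← hΛ]
        linarith
      have key : ∀ d ∈ Ico (Wl b N) (2 * Wl b N), prq (M * 2 ^ d) (fun y => Ev f c η d y) ≤
          4 * Real.exp (η / C) * Λ ^ (-(2 : ℝ)) := by
        intro d hd
        rw [mem_Ico] at hd
        have hd1 : b * Real.log Λ ≤ d := by
          have : ((Wl b N : ℕ) : ℝ) ≤ d := by exact_mod_cast hd.1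
          linarith
        refine (Ev_prq hc hC hη hg hfg d).trans ?_
        rw [mul_assoc]
        apply mul_le_mul_of_nonneg_left _ (by norm_num)
        rw [Real.rpow_def_of_pos hΛ0, ← Real.exp_add]
        apply Real.exp_le_exp.2
        have g1 : η ^ 2 / (8 * C ^ 2) * (b * Real.log Λ) ≤ η ^ 2 / (8 * C ^ 2) * d := mul_le_mul_of_nonneg_left hd1 (by positivity)
        have g2 : η ^ 2 / (8 * C ^ 2) * (b * Real.log Λ) = 2 * Real.log Λ := by
          rw [hb]
          field_simp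
          ring
        linarith
      calc Λ * ∑ d ∈ Ico (Wl b N) (2 * Wl b N), prq (M * 2 ^ d) (fun y => Ev f c η d y)
          ≤ Λ * ∑ _d ∈ Ico (Wl b N) (2 * Wl b N), 4 * Real.exp (η / C) * Λ ^ (-(2 : ℝ)) :=
            mul_le_mul_of_nonneg_left (sum_le_sum key) hΛ0.le
        _ = Λ * (Wl b N * (4 * Real.exp (η / C) * Λ ^ (-(2 : ℝ)))) := by
            rw [sum_const, Nat.card_Ico, nsmul_eq_mul, show 2 * Wl b N - Wl b N = Wl b N by omega]
        _ ≤ Λ * (Λ ^ (1 / 2 : ℝ) * (4 * Real.exp (η / C) * Λ ^ (-(2 : ℝ)))) := by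
            apply mul_le_mul_of_nonneg_left _ hΛ0.le
            exact mul_le_mul_of_nonneg_right hW2 (by positivity)
        _ = 4 * Real.exp (η / C) * (Λ ^ (1 : ℝ) * Λ ^ (1 / 2 : ℝ) * Λ ^ (-(2 : ℝ))) := by
            rw [Real.rpow_one]
            ring
        _ = 4 * Real.exp (η / C) * Λ ^ (-(1 / 2 : ℝ)) := by
            rw [← Real.rpow_add hΛ0, ← Real.rpow_add hΛ0]
            norm_num

end Pool.Agent.V11311.BW
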