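import Pool.Agent.V11311.BW.B
import Pool.Agent.V11311.ER.O

/-! Residues and leading digits in short windows, part C: sums in short windows. -/

set_option autoImplicit false

namespace Pool.Agent.V11311.BW

open Finset Filter Topology Pool.Agent.V11311.FP Pool.Agent.V11311.RC Pool.Agent.V11311.SL Pool.Agent.V11311.ER

open Pool.Agent.V11311.DV (fl fl_card mem_fl)

open Pool.Agent.Helper894.Collatz (T od er od_add iter_eq sum_pow_od period)

open Pool.Agent.H377R2 (iter_pos)

open Pool.Agent.W38.BF (WN WN_period WN_smul card_dev phase_cmp PP)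

/-- small sums in all windows of at least `C log log n` terms above `n ^ κ` -/
def WinL (G : ℕ → ℂ) : Prop := ∀ η : ℝ, 0 < η → ∃ C : ℝ, 0 < C ∧ ∀ κ : ℝ, 0 < κ → HasD (fun n => ∀ s w : ℕ,
  C * Real.log (Real.log n) ≤ w → (∀ s', s' < s + w → (n : ℝ) ^ κ < (T^[s'] n : ℕ)) → ‖Sw G w (T^[s] n)‖ ≤ η * w) 1

variable {M : ℕ} [NeZero M]

theorem win_sum {f g : ZMod M → ℂ} {c : ℕ → ℂ} (hc : ∀ b, ‖c b‖ = 1) (hfg : ∀ x, f x = g x - PP M c g x)
    {ψ : ℕ → ℂ} (hψ1 : ∀ m, ‖ψ m‖ = 1) {K : ℝ} (hK : 0 ≤ K)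
    (hψ : ∀ m : ℕ, 1 ≤ m → ‖ψ (T m) - ψ m * c (m % 2)‖ ≤ K / m) : WinL (fun m => ψ m * f (m : ZMod M)) := by
  intro η hη
  -- bounds
  obtain ⟨C, hC, hg⟩ : ∃ C : ℝ, 0 < C ∧ ∀ x, ‖g x‖ ≤ C := by
    refine ⟨∑ x, ‖g x‖ + 1, by positivity, fun x => ?_⟩
    have := single_le_sum (f := fun x => ‖g x‖) (fun i _ => norm_nonneg _) (mem_univ x)
    linarith
  obtain ⟨F, hF, hf⟩ : ∃ F : ℝ, 0 < F ∧ ∀ x, ‖f x‖ ≤ F := by
    refine ⟨∑ x, ‖f x‖ + 1, by positivity, fun x => ?_⟩
    have := single_le_sum (f := fun x => ‖f x‖) (fun i _ => norm_nonneg _) (mem_univ x)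
    linarith
  set b : ℝ := 16 * C ^ 2 / (η / 2) ^ 2 with hb
  have hb0 : 0 < b := by rw [hb]; positivity
  refine ⟨b + 1, by positivity, fun κ hκ => ?_⟩
  have hlog : Tendsto (fun N : ℕ => Real.log (N : ℝ)) atTop atTop :=
    Real.tendsto_log_atTop.comp tendsto_natCast_atTop_atTop
  have e1 : ∀ᶠ X : ℝ in atTop, 2 * (b * Real.log X + 1) ≤ κ / 4 * X := by
    have h1 : ∀ᶠ X : ℝ in atTop, ‖Real.log X‖ ≤ ((κ / 4) / (4 * b)) * ‖X‖ :=
      (Real.isLittleO_log_id_atTop).bound (by positivity)
    filter_upwards [h1, eventually_ge_atTop (1 : ℝ), eventually_ge_atTop (4 / (κ / 4))] with X h1 h2 h3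
    rw [Real.norm_of_nonneg (Real.log_nonneg h2), Real.norm_of_nonneg (by linarith)] at h1
    rw [div_le_iff₀ (by positivity)] at h3
    have h4 : b * Real.log X ≤ b * ((κ / 4) / (4 * b) * X) := mul_le_mul_of_nonneg_left h1 hb0.le
    have h5 : b * ((κ / 4) / (4 * b) * X) = (κ / 4) / 4 * X := by field_simp
    linarith
  have e5 := tendsto_natCast_atTop_atTop.eventually
    ((tendsto_rpow_atTop (show 0 < κ / 4 by positivity)).eventually (eventually_ge_atTop (F * K * (2 / η))))
  apply hasD_one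
  intro ε hε
  filter_upwards [small_rare (ε / 3) (by positivity),
    ev_rare hc hC (show 0 < η / 2 by positivity) hg hfg hb (κ := κ / 2) (by positivity) (ε / 3) (by positivity),
    hlog.eventually (e1.and (eventually_ge_atTop (3 : ℝ))), ll_tendsto.eventually (eventually_ge_atTop (b + 2)),
    eventually_ge_atTop 3, e5] with N h1 h2 h3 h4 hN3 h5
  obtain ⟨f1, f2⟩ := h3
  set Λ := Real.log N with hΛ
  have hΛ0 : 0 < Λ := by linarith
  have hN0 : (0 : ℝ) < N := by
    have : (3 : ℝ) ≤ N := by exact_mod_cast hN3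
    linarith
  have hWpos : 0 < Wl b N := Nat.ceil_pos.2 (by rw [← hΛ]; exact mul_pos hb0 (by linarith))
  have hWle : (Wl b N : ℝ) ≤ b * Real.log Λ + 1 := by
    have g2 := Nat.ceil_lt_add_one (show 0 ≤ b * Real.log Λ by
      apply mul_nonneg hb0.le
      linarith)
    unfold Wl
    rw [← hΛ]
    linarith
  have h0 : (cN (fun _ => False) N : ℝ) = 0 := by
    rw [← fl_card]
    have : fl (fun _ => False) N = ∅ := by
      ext n
      rw [mem_fl]
      simp
    rw [this]
    simp
  have h7 := cN_or3 (P := fun n => ¬ (∀ s w : ℕ, (b + 1) * Real.log (Real.log n) ≤ w →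
      (∀ s', s' < s + w → (n : ℝ) ^ κ < (T^[s'] n : ℕ)) → ‖Sw (fun m => ψ m * f (m : ZMod M)) w (T^[s] n)‖ ≤ η * w))
    (A := fun n => (n : ℝ) < Real.sqrt N)
    (B := fun _ => False)
    (C := St (fun N m => ∃ d ∈ Ico (Wl b N) (2 * Wl b N), Ev f c (η / 2) d m) N (Lv (κ / 2) N)) (N := N)
    (fun n hn hnN hbad => by
      rcases lt_or_ge (n : ℝ) (Real.sqrt N) with h | h
      · exact Or.inl h
      · right; right
        by_contra hgood
        apply hbad
        intro s w hw hab
        have hn0 : (0 : ℝ) < n := by exact_mod_cast hn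
        have hnR : (n : ℝ) ≤ N := by exact_mod_cast hnN
        have hl1 := log_half h (by omega)
        have hln : 0 < Real.log n := by linarith
        have hll : Real.log Λ - 1 ≤ Real.log (Real.log n) := by
          have k1 : Real.log (Λ / 2) ≤ Real.log (Real.log n) := Real.log_le_log (by positivity) hl1
          have k2 : Real.log (Λ / 2) = Real.log Λ - Real.log 2 := Real.log_div hΛ0.ne' (by norm_num)
          have hl2 : Real.log 2 < 1 := by have := Real.log_two_lt_d9; linarith
          linarith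
        have hWw : Wl b N ≤ w := by
          have k1 : (Wl b N : ℝ) ≤ w := by
            have k3 : b * Real.log Λ ≤ b * (Real.log (Real.log n) + 1) := mul_le_mul_of_nonneg_left (by linarith) hb0.le
            nlinarith
          exact_mod_cast k1
        apply pieces hWpos w s hWw
        intro s' d g1 g2 g3 g4
        have hys : (n : ℝ) ^ κ < (T^[s'] n : ℕ) := hab s' (by omega)
        set y := T^[s'] n with hy
        have hy1 : 1 ≤ y := iter_pos hn s'
        have hy0 : (0 : ℝ) < y := by exact_mod_cast hy1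
        have hE : ¬ Ev f c (η / 2) d y := by
          intro hE
          exact hgood ⟨s', fun s'' hs'' => Lv_lt hκ h (hab s'' (by omega)), d, mem_Ico.2 ⟨g3, g4⟩, hE⟩
        unfold Ev at hE
        push Not at hE
        have q1 := phase_cmp hc hf hK hψ d d y le_rfl hy1
        have q2 : ‖WN f c d y (ψ y)‖ ≤ η / 2 * d := by
          have := WN_smul f c d y (ψ y) 1
          rw [mul_one] at this
          rw [this, norm_mul, hψ1, one_mul]
          exact hE
        have q3 : ‖Sw (fun m => ψ m * f (m : ZMod M)) d y‖ ≤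
            ‖∑ s ∈ range d, ψ (T^[s] y) * f ((T^[s] y : ℕ) : ZMod M) - WN f c d y (ψ y)‖ + ‖WN f c d y (ψ y)‖ := by
          unfold Sw
          have := norm_add_le (∑ s ∈ range d, ψ (T^[s] y) * f ((T^[s] y : ℕ) : ZMod M) - WN f c d y (ψ y)) (WN f c d y (ψ y))
          rwa [sub_add_cancel] at this
        have q4 : (2 : ℝ) ^ d ≤ (N : ℝ) ^ (κ / 4) := by
          have hd : (d : ℝ) ≤ 2 * (b * Real.log Λ + 1) := by
            have g1 : (d : ℝ) < 2 * (Wl b N : ℕ) := by exact_mod_cast g4
            linarith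
          calc (2 : ℝ) ^ d = Real.exp (d * Real.log 2) := by
                rw [Real.exp_nat_mul, Real.exp_log (by norm_num)]
            _ ≤ Real.exp (Real.log N * (κ / 4)) := by
                apply Real.exp_le_exp.2
                have hl2 : Real.log 2 < 1 := by have := Real.log_two_lt_d9; linarith
                have hl2' : 0 < Real.log 2 := Real.log_pos (by norm_num)
                have m0 : (0 : ℝ) ≤ (d : ℝ) := Nat.cast_nonneg _
                rw [← hΛ]
                nlinarith
            _ = (N : ℝ) ^ (κ / 4) := by rw [Real.rpow_def_of_pos hN0]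
        have q5 : (N : ℝ) ^ (κ / 4) * (N : ℝ) ^ (κ / 4) ≤ y := by
          have k1 : (N : ℝ) ^ (κ / 2) ≤ (n : ℝ) ^ κ := by
            calc (N : ℝ) ^ (κ / 2) = (Real.sqrt N) ^ κ := by
                  rw [Real.sqrt_eq_rpow, ← Real.rpow_mul (by positivity)]
                  congr 1
                  ring
              _ ≤ (n : ℝ) ^ κ := Real.rpow_le_rpow (by positivity) h hκ.le
          rw [← Real.rpow_add hN0, show κ / 4 + κ / 4 = κ / 2 by ring]
          linarith
        have q6 : F * K * d * ((2 ^ d - 1) / y) ≤ η / 2 * d := by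
          have k1 : ((2 : ℝ) ^ d - 1) / y ≤ 1 / (N : ℝ) ^ (κ / 4) := by
            have hp : (0 : ℝ) < (N : ℝ) ^ (κ / 4) := by positivity
            rw [div_le_div_iff₀ hy0 hp]
            nlinarith
          calc F * K * d * ((2 ^ d - 1) / y) ≤ F * K * d * (1 / (N : ℝ) ^ (κ / 4)) :=
                mul_le_mul_of_nonneg_left k1 (by positivity)
            _ = F * K / (N : ℝ) ^ (κ / 4) * d := by ring
            _ ≤ η / 2 * d := by
                apply mul_le_mul_of_nonneg_right _ (Nat.cast_nonneg _)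
                rw [div_le_iff₀ (by positivity)]
                have k2 : F * K * (2 / η) * (η / 2) ≤ (N : ℝ) ^ (κ / 4) * (η / 2) := mul_le_mul_of_nonneg_right h5 (by positivity)
                have k3 : F * K * (2 / η) * (η / 2) = F * K := by field_simp
                linarith
        linarith)
  rw [h0] at h7
  have : (0 : ℝ) < ε / 3 * N := by positivity
  linarith

/-- the twisted sums -/
theorem win_twist {θ : ℝ} (hθ : θ ≠ 0) (f : ZMod M → ℂ) :
    WinL (fun m => Pool.Agent.W38.BF.ec (θ * Real.log m) * f (m : ZMod M)) := by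
  have hc : ∀ b, ‖Pool.Agent.W38.BF.cc θ b‖ = 1 := fun b => Pool.Agent.W38.BF.norm_ec _
  obtain ⟨g, hg⟩ := Pool.Agent.W38.BF.corr_twist hc (Pool.Agent.W38.BF.cc_root hθ) f
  exact win_sum hc hg (ψ := fun m => Pool.Agent.W38.BF.ec (θ * Real.log m)) (fun m => Pool.Agent.W38.BF.norm_ec _) (abs_nonneg θ)
    (fun m hm => Pool.Agent.W38.BF.psi_step θ hm)

/-- the untwisted sums -/
theorem win_plain {f g : ZMod M → ℂ} {l : ℂ} (hfg : ∀ x, f x = l + (g x - PP M (fun _ => 1) g x)) :
    WinL (fun m => f (m : ZMod M) - l) := by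
  have h := win_sum (c := fun _ => 1) (f := fun x => f x - l) (g := g) (by simp) (fun x => by
    rw [hfg x]; ring) (ψ := fun _ => 1) (by simp) (K := 0) le_rfl (by intro m _; simp)
  simpa only [one_mul] using h

end Pool.Agent.V11311.BW
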