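import Pool.Agent.V11311.BW.C

/-! Residues and leading digits in short windows, part D: Weyl's criterion. -/

set_option autoImplicit false

namespace Pool.Agent.V11311.BW

open Finset Filter Topology MeasureTheory Pool.Agent.V11311.FP Pool.Agent.V11311.RC Pool.Agent.V11311.SL Pool.Agent.V11311.ER

open Pool.Agent.Helper894.Collatz (T od er od_add iter_eq sum_pow_od period)

open Pool.Agent.H377R2 (iter_pos)

open Pool.Agent.W38.BF (WN WN_period WN_smul card_dev phase_cmp PP int_C int_le ec)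

open Pool.Agent.H84R3 (Circ ex fourier_coe_eq integral_fourier_eq_zero)

/-- a property of all windows of at least `C log log n` terms above `n ^ κ` -/
def Wi (Q : ℕ → ℕ → Prop) : Prop := ∃ C : ℝ, 0 < C ∧ ∀ κ : ℝ, 0 < κ → HasD (fun n => ∀ s w : ℕ,
  C * Real.log (Real.log n) ≤ w → (∀ s', s' < s + w → (n : ℝ) ^ κ < (T^[s'] n : ℕ)) → Q w (T^[s] n)) 1

theorem Wi.mono {Q Q' : ℕ → ℕ → Prop} (h : Wi Q) (hQ : ∀ w m, 0 < m → Q w m → Q' w m) : Wi Q' := by
  obtain ⟨C, hC, h1⟩ := h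
  refine ⟨C, hC, fun κ hκ => hasD_mono_one (h1 κ hκ) fun n hn h2 s w h3 h4 => ?_⟩
  exact hQ _ _ (iter_pos hn s) (h2 s w h3 h4)

theorem Wi.and {Q Q' : ℕ → ℕ → Prop} (h : Wi Q) (h' : Wi Q') : Wi (fun w m => Q w m ∧ Q' w m) := by
  obtain ⟨C, hC, h1⟩ := h
  obtain ⟨C', hC', h1'⟩ := h'
  refine ⟨max C C', lt_max_of_lt_left hC, fun κ hκ => ?_⟩
  obtain ⟨n0, hn0⟩ := eventually_atTop.1 (ll_tendsto.eventually (eventually_ge_atTop (0 : ℝ)))
  refine hasD_mono_one (tail_dens (inter2 HasD_true (h1 κ hκ) (h1' κ hκ) (fun _ _ _ => trivial)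
    (fun _ _ _ => trivial)) n0) ?_
  rintro n hn ⟨⟨g1, g2⟩, hnn⟩ s w h3 h4
  have hl := hn0 n hnn
  exact ⟨g1 s w (le_trans (mul_le_mul_of_nonneg_right (le_max_left _ _) hl) h3) h4,
    g2 s w (le_trans (mul_le_mul_of_nonneg_right (le_max_right _ _) hl) h3) h4⟩

theorem WinL.wi {G : ℕ → ℂ} (h : WinL G) {η : ℝ} (hη : 0 < η) : Wi (fun w m => ‖Sw G w m‖ ≤ η * w) := h η hη

section
variable (M : ℕ) [NeZero M]

/-- the weighted sums -/
noncomputable def Sx (B : ℝ) (r : ℕ) (pr : ℝ) (F : C(Circ, ℂ)) (w m : ℕ) : ℂ :=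
  ∑ s ∈ range w, F ((Real.logb B (T^[s] m : ℕ) : ℝ) : Circ) *
    (if ((T^[s] m : ℕ) : ZMod M) = (r : ZMod M) then 1 else 0) - (∫ x : Circ, F x) * pr * w

/-- the good functions -/
def GX (B : ℝ) (r : ℕ) (pr : ℝ) (F : C(Circ, ℂ)) : Prop :=
  ∀ ε : ℝ, 0 < ε → Wi (fun w m => ‖Sx M B r pr F w m‖ ≤ ε * w)

variable {M}

theorem Sx_add (B : ℝ) (r : ℕ) (pr : ℝ) (F G : C(Circ, ℂ)) (w m : ℕ) :
    Sx M B r pr (F + G) w m = Sx M B r pr F w m + Sx M B r pr G w m := by
  have hi : ∫ x : Circ, (F + G) x = (∫ x : Circ, F x) + ∫ x : Circ, G x := by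
    have := integral_add (int_C F) (int_C G)
    simpa using this
  unfold Sx
  rw [hi]
  simp only [ContinuousMap.add_apply, add_mul, sum_add_distrib]
  ring

theorem Sx_smul (B : ℝ) (r : ℕ) (pr : ℝ) (c : ℂ) (F : C(Circ, ℂ)) (w m : ℕ) :
    Sx M B r pr (c • F) w m = c * Sx M B r pr F w m := by
  have hi : ∫ x : Circ, (c • F) x = c * (∫ x : Circ, F x) := by
    simp [integral_const_mul]
  unfold Sx
  rw [hi]
  simp only [ContinuousMap.smul_apply, smul_eq_mul, mul_assoc]
  rw [← mul_sum]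
  ring

theorem Sx_norm (B : ℝ) (r : ℕ) {pr : ℝ} (h0 : 0 ≤ pr) (h1 : pr ≤ 1) (F : C(Circ, ℂ)) (w m : ℕ) :
    ‖Sx M B r pr F w m‖ ≤ 2 * ‖F‖ * w := by
  unfold Sx
  refine (norm_sub_le _ _).trans ?_
  have e1 : ‖∑ s ∈ range w, F ((Real.logb B (T^[s] m : ℕ) : ℝ) : Circ) *
      (if ((T^[s] m : ℕ) : ZMod M) = (r : ZMod M) then (1 : ℂ) else 0)‖ ≤ w * ‖F‖ := by
    refine (norm_sum_le _ _).trans ?_
    refine (sum_le_card_nsmul _ _ ‖F‖ (fun s _ => ?_)).trans ?_
    · rw [norm_mul]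
      have h2 := F.norm_coe_le_norm ((Real.logb B (T^[s] m : ℕ) : ℝ) : Circ)
      have h3 : ‖(if ((T^[s] m : ℕ) : ZMod M) = (r : ZMod M) then (1 : ℂ) else 0)‖ ≤ 1 := by
        split_ifs <;> simp
      calc _ ≤ ‖F‖ * 1 := mul_le_mul h2 h3 (norm_nonneg _) (norm_nonneg _)
        _ = _ := mul_one _
    · rw [card_range, nsmul_eq_mul]
  have e2 : ‖(∫ x : Circ, F x) * pr * w‖ ≤ ‖F‖ * w := by
    rw [norm_mul, norm_mul, Complex.norm_natCast, Complex.norm_real, Real.norm_eq_abs, abs_of_nonneg h0]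
    apply mul_le_mul_of_nonneg_right _ (Nat.cast_nonneg _)
    calc ‖∫ x : Circ, F x‖ * pr ≤ ‖F‖ * 1 := mul_le_mul (int_le F) h1 h0 (norm_nonneg _)
      _ = _ := mul_one _
  linarith

theorem GX_fourier {B : ℝ} (hB : 1 < B) {r : ℕ} {pr : ℝ} {g : ZMod M → ℂ}
    (hg : ∀ x, (if x = ((r : ℕ) : ZMod M) then (1 : ℂ) else 0) = (pr : ℂ) + (g x - PP M (fun _ => 1) g x))
    (h : ℤ) : GX M B r pr (fourier h) := by
  intro ε hε
  by_cases hh : h = 0
  · subst hh
    refine ((win_plain hg).wi hε).mono fun w m hm h1 => ?_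
    have hint : ∫ x : Circ, (fourier 0 x : ℂ) = 1 := by
      simp [fourier_zero, Measure.real]
    unfold Sx
    rw [hint]
    simp only [fourier_zero, one_mul]
    unfold Sw at h1
    simp only [sum_sub_distrib, sum_const, card_range, nsmul_eq_mul] at h1
    rwa [mul_comm (w : ℂ)] at h1
  · have hl : 0 < Real.log B := Real.log_pos hB
    set θ : ℝ := 2 * Real.pi * h / Real.log B with hθ
    have hθ0 : θ ≠ 0 := by
      rw [hθ]
      apply div_ne_zero _ hl.ne'
      apply mul_ne_zero (by have := Real.pi_pos; positivity)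
      exact_mod_cast hh
    refine ((win_twist (M := M) hθ0 (fun x => if x = ((r : ℕ) : ZMod M) then (1 : ℂ) else 0)).wi hε).mono
      fun w m hm h1 => ?_
    unfold Sx
    rw [integral_fourier_eq_zero hh, zero_mul, zero_mul, sub_zero]
    refine le_of_eq_of_le ?_ h1
    unfold Sw
    congr 1
    apply sum_congr rfl
    intro s _
    congr 1
    rw [fourier_coe_eq]
    unfold ex ec
    congr 2
    rw [hθ]
    unfold Real.logb
    congr 1
    field_simp

theorem GX_all {B : ℝ} (hB : 1 < B) {r : ℕ} {pr : ℝ} (h0 : 0 ≤ pr) (h1 : pr ≤ 1) {g : ZMod M → ℂ}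
    (hg : ∀ x, (if x = ((r : ℕ) : ZMod M) then (1 : ℂ) else 0) = (pr : ℂ) + (g x - PP M (fun _ => 1) g x))
    (F : C(Circ, ℂ)) : GX M B r pr F := by
  have hmem : ∀ f ∈ (Submodule.span ℂ (Set.range <| @fourier 1)), GX M B r pr f := by
    intro f hf
    induction hf using Submodule.span_induction with
    | mem f hf =>
      obtain ⟨h, rfl⟩ := hf
      exact GX_fourier hB hg h
    | zero =>
      intro ε hε
      refine (GX_fourier hB hg 0 ε hε).mono fun w m hm _ => ?_
      have : Sx M B r pr 0 w m = 0 := by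
        unfold Sx; simp
      rw [this, norm_zero]
      positivity
    | add f g hf hg ihf ihg =>
      intro ε hε
      refine ((ihf (ε / 2) (by positivity)).and (ihg (ε / 2) (by positivity))).mono fun w m hm h => ?_
      rw [Sx_add]
      refine (norm_add_le _ _).trans ?_
      linarith [h.1, h.2]
    | smul c f hf ihf =>
      intro ε hε
      refine (ihf (ε / (‖c‖ + 1)) (by positivity)).mono fun w m hm a1 => ?_
      rw [Sx_smul, norm_mul]
      calc ‖c‖ * ‖Sx M B r pr f w m‖ ≤ (‖c‖ + 1) * (ε / (‖c‖ + 1) * w) :=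
            mul_le_mul (by linarith) a1 (norm_nonneg _) (by positivity)
        _ = ε * w := by
            have : ‖c‖ + 1 ≠ 0 := by positivity
            field_simp
  intro ε hε
  have hcl : F ∈ (Submodule.span ℂ (Set.range <| @fourier 1)).topologicalClosure := by
    rw [span_fourier_closure_eq_top]; trivial
  rw [← SetLike.mem_coe, Submodule.topologicalClosure_coe, Metric.mem_closure_iff] at hcl
  obtain ⟨f, hf, hfd⟩ := hcl (ε / 4) (by positivity)
  refine (hmem f hf (ε / 2) (by positivity)).mono fun w m hm a1 => ?_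
  have a2 : Sx M B r pr F w m = Sx M B r pr f w m + Sx M B r pr (F - f) w m := by
    rw [← Sx_add]; congr 1; simp
  rw [a2]
  refine (norm_add_le _ _).trans ?_
  have a3 := Sx_norm (M := M) B r h0 h1 (F - f) w m
  have a4 : ‖F - f‖ < ε / 4 := by rw [← dist_eq_norm]; exact hfd
  have a5 : 2 * ‖F - f‖ * w ≤ 2 * (ε / 4) * w :=
    mul_le_mul_of_nonneg_right (by linarith) (Nat.cast_nonneg _)
  linarith

/-- visits to a closed set -/
theorem closed_upx {B : ℝ} (hB : 1 < B) {r : ℕ} (hr : r < M) {pr : ℝ} (h0 : 0 ≤ pr) (h1 : pr ≤ 1) {g : ZMod M → ℂ}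
    (hg : ∀ x, (if x = ((r : ℕ) : ZMod M) then (1 : ℂ) else 0) = (pr : ℂ) + (g x - PP M (fun _ => 1) g x))
    {N : Set Circ} (hN : IsClosed N) {v : ℝ} (hv : 0 ≤ v) (hN0 : volume N ≤ ENNReal.ofReal v)
    {ε : ℝ} (hε : 0 < ε) :
    Wi (fun w m => ∀ S : Finset ℕ, S ⊆ range w →
      (∀ s ∈ S, T^[s] m % M = r ∧ ((Real.logb B (T^[s] m : ℕ) : ℝ) : Circ) ∈ N) →
      (S.card : ℝ) ≤ v * pr * w + ε * w) := by
  classical
  obtain ⟨U, hNU, hUo, hUv⟩ : ∃ U ⊇ N, IsOpen U ∧ volume U < ENNReal.ofReal (v + ε / 2) :=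
    N.exists_isOpen_lt_of_lt _ (lt_of_le_of_lt hN0
      ((ENNReal.ofReal_lt_ofReal_iff (by positivity)).2 (by linarith)))
  obtain ⟨f, hf0, hf1, hf01⟩ := exists_continuous_zero_one_of_isClosed hUo.isClosed_compl hN
    (by rw [Set.disjoint_compl_left_iff_subset]; exact hNU)
  let F : C(Circ, ℂ) := ⟨fun x => (f x : ℂ), by fun_prop⟩
  have hint0 : ∫ x : Circ, F x = ((∫ x : Circ, f x : ℝ) : ℂ) := by
    simp only [F, ContinuousMap.coe_mk]
    exact integral_ofReal
  have hint : ∫ x : Circ, f x ≤ v + ε / 2 := by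
    have h2 : ∫ x : Circ, f x ≤ ∫ x : Circ, U.indicator (fun _ => (1 : ℝ)) x := by
      apply integral_mono
      · exact f.continuous.integrable_of_hasCompactSupport (HasCompactSupport.of_compactSpace _)
      · exact (integrable_indicator_iff hUo.measurableSet).2 (integrableOn_const (by simp) )
      · intro x
        by_cases hx : x ∈ U
        · simp only [hx, Set.indicator_of_mem]; exact (hf01 x).2
        · simp only [hx, not_false_eq_true, Set.indicator_of_notMem]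
          exact le_of_eq (hf0 hx)
    rw [integral_indicator hUo.measurableSet] at h2
    simp only [integral_const, MeasurableSet.univ, measureReal_restrict_apply, Set.univ_inter, smul_eq_mul, mul_one] at h2
    refine h2.trans ?_
    rw [Measure.real]
    exact ENNReal.toReal_le_of_le_ofReal (by positivity) hUv.le
  refine (GX_all hB h0 h1 hg F (ε / 2) (by positivity)).mono fun w m hm a1 S hS hSN => ?_
  have a2 := (abs_le.1 ((Complex.abs_re_le_norm _).trans a1)).2
  have e : (Sx M B r pr F w m).re = ∑ s ∈ range w, f ((Real.logb B (T^[s] m : ℕ) : ℝ) : Circ) *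
      (if ((T^[s] m : ℕ) : ZMod M) = (r : ZMod M) then 1 else 0) - (∫ x : Circ, f x) * pr * w := by
    unfold Sx
    rw [hint0, ← Complex.ofReal_re (∑ s ∈ range w, f ((Real.logb B (T^[s] m : ℕ) : ℝ) : Circ) *
      (if ((T^[s] m : ℕ) : ZMod M) = (r : ZMod M) then 1 else 0) - (∫ x : Circ, f x) * pr * w)]
    congr 1
    push_cast
    congr 1
    apply sum_congr rfl
    intro s _
    have : F ((Real.logb B (T^[s] m : ℕ) : ℝ) : Circ) = ((f ((Real.logb B (T^[s] m : ℕ) : ℝ) : Circ) : ℝ) : ℂ) := rfl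
    rw [this]
    split_ifs <;> simp
  rw [e] at a2
  have a3 : (S.card : ℝ) ≤ ∑ s ∈ range w, f ((Real.logb B (T^[s] m : ℕ) : ℝ) : Circ) *
      (if ((T^[s] m : ℕ) : ZMod M) = (r : ZMod M) then 1 else 0) := by
    calc (S.card : ℝ) = ∑ s ∈ S, (1 : ℝ) := by simp
      _ = ∑ s ∈ S, f ((Real.logb B (T^[s] m : ℕ) : ℝ) : Circ) *
          (if ((T^[s] m : ℕ) : ZMod M) = (r : ZMod M) then 1 else 0) := by
          apply sum_congr rfl
          intro s hs
          obtain ⟨b1, b2⟩ := hSN s hs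
          have b3 := hf1 b2
          simp only [Pi.one_apply] at b3
          have b4 : ((T^[s] m : ℕ) : ZMod M) = (r : ZMod M) := by
            rw [ZMod.natCast_eq_natCast_iff', b1, Nat.mod_eq_of_lt hr]
          rw [b3, if_pos b4, mul_one]
      _ ≤ _ := by
          apply sum_le_sum_of_subset_of_nonneg hS
          intro s _ _
          apply mul_nonneg (hf01 _).1
          split_ifs <;> norm_num
  have a4 : (∫ x : Circ, f x) * pr * w ≤ v * pr * w + ε / 2 * w := by
    have b1 : (∫ x : Circ, f x) * (pr * w) ≤ (v + ε / 2) * (pr * w) :=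
      mul_le_mul_of_nonneg_right hint (by positivity)
    have b2 : ε / 2 * (pr * w) ≤ ε / 2 * w := by
      have b3 : pr * (w : ℝ) ≤ w := by
        calc pr * (w : ℝ) ≤ 1 * w := mul_le_mul_of_nonneg_right h1 (Nat.cast_nonneg _)
          _ = w := one_mul _
      exact mul_le_mul_of_nonneg_left b3 (by positivity)
    linarith
  linarith

end

/-- the number of `j < w` such that `T^j m ≡ r` modulo `M` and `a ≤ {log_B T^j m} < b` -/
noncomputable def NX (M r : ℕ) (B a b : ℝ) (w m : ℕ) : ℕ :=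
  ((range w).filter (fun s => T^[s] m % M = r ∧ a ≤ Int.fract (Real.logb B (T^[s] m : ℕ)) ∧
    Int.fract (Real.logb B (T^[s] m : ℕ)) < b)).card

theorem int_upx {M : ℕ} [NeZero M] {B : ℝ} (hB : 1 < B) {r : ℕ} (hr : r < M) {pr : ℝ} (h0 : 0 ≤ pr) (h1 : pr ≤ 1) {g : ZMod M → ℂ}
    (hg : ∀ x, (if x = ((r : ℕ) : ZMod M) then (1 : ℂ) else 0) = (pr : ℂ) + (g x - PP M (fun _ => 1) g x))
    {a b : ℝ} (hab : a ≤ b) {ε : ℝ} (hε : 0 < ε) :
    Wi (fun w m => (NX M r B a b w m : ℝ) ≤ (b - a) * pr * w + ε * w) := by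
  refine (closed_upx hB hr h0 h1 hg (N := Metric.closedBall (((a + b) / 2 : ℝ) : Circ) ((b - a) / 2))
    Metric.isClosed_closedBall (v := b - a) (by linarith) (by
      rw [AddCircle.volume_closedBall]
      apply ENNReal.ofReal_le_ofReal
      refine (min_le_right _ _).trans (by linarith)) hε).mono fun w m hm hQ => ?_
  apply hQ _ (filter_subset _ _)
  intro j hj
  rw [mem_filter] at hj
  obtain ⟨_, hm0, hm1, hm2⟩ := hj
  refine ⟨hm0, ?_⟩
  rw [Metric.mem_closedBall, dist_eq_norm]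
  set x := Real.logb B (T^[j] m : ℕ) with hx
  have h2 : ((x : ℝ) : Circ) = ((Int.fract x : ℝ) : Circ) := by
    rw [← sub_eq_zero, ← AddCircle.coe_sub, AddCircle.coe_eq_zero_iff]
    refine ⟨⌊x⌋, ?_⟩
    simp [Int.self_sub_fract]
  rw [h2, ← AddCircle.coe_sub]
  refine (QuotientAddGroup.norm_mk_le_norm).trans ?_
  rw [Real.norm_eq_abs, abs_le]
  constructor <;> linarith

/-- **two-sided equidistribution in short windows** -/
theorem main_wi {M : ℕ} [NeZero M] {B : ℝ} (hB : 1 < B) {r : ℕ} (hr : r < M) {pr : ℝ} (h0 : 0 ≤ pr) (h1 : pr ≤ 1) {g : ZMod M → ℂ}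
    (hg : ∀ x, (if x = ((r : ℕ) : ZMod M) then (1 : ℂ) else 0) = (pr : ℂ) + (g x - PP M (fun _ => 1) g x))
    {b : ℝ} (hb0 : 0 ≤ b) (hb : b ≤ 1) {ε : ℝ} (hε : 0 < ε) :
    Wi (fun w m => |(NX M r B 0 b w m : ℝ) - b * pr * w| ≤ ε * w) := by
  have u1 := int_upx hB hr h0 h1 hg hb0 (by positivity : 0 < ε / 4)
  have u3 := int_upx hB hr h0 h1 hg hb (by positivity : 0 < ε / 4)
  have u4 := (win_plain hg).wi (by positivity : 0 < ε / 4)
  refine (u1.and (u3.and u4)).mono fun w m hm h => ?_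
  obtain ⟨c1, c3, c4⟩ := h
  -- the total number
  have htot : ((((range w).filter (fun s => T^[s] m % M = r)).card : ℕ) : ℝ) =
      (NX M r B 0 b w m : ℝ) + NX M r B b 1 w m := by
    unfold NX
    have e1 : ((range w).filter (fun s => T^[s] m % M = r)) =
        ((range w).filter (fun s => T^[s] m % M = r ∧ 0 ≤ Int.fract (Real.logb B (T^[s] m : ℕ)) ∧
          Int.fract (Real.logb B (T^[s] m : ℕ)) < b)) ∪
        ((range w).filter (fun s => T^[s] m % M = r ∧ b ≤ Int.fract (Real.logb B (T^[s] m : ℕ)) ∧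
          Int.fract (Real.logb B (T^[s] m : ℕ)) < 1)) := by
      ext s
      simp only [mem_union, mem_filter]
      constructor
      · rintro ⟨hs1, hs2⟩
        have f0 := Int.fract_nonneg (Real.logb B (T^[s] m : ℕ))
        have f1 := Int.fract_lt_one (Real.logb B (T^[s] m : ℕ))
        by_cases hb' : Int.fract (Real.logb B (T^[s] m : ℕ)) < b
        · left; exact ⟨hs1, hs2, f0, hb'⟩
        · right; exact ⟨hs1, hs2, not_lt.mp hb', f1⟩
      · rintro (h | h) <;> exact ⟨h.1, h.2.1⟩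
    have k1 : Disjoint ((range w).filter (fun s => T^[s] m % M = r ∧ 0 ≤ Int.fract (Real.logb B (T^[s] m : ℕ)) ∧
          Int.fract (Real.logb B (T^[s] m : ℕ)) < b))
        ((range w).filter (fun s => T^[s] m % M = r ∧ b ≤ Int.fract (Real.logb B (T^[s] m : ℕ)) ∧
          Int.fract (Real.logb B (T^[s] m : ℕ)) < 1)) := by
      rw [disjoint_filter]
      rintro s _ ⟨_, _, h5⟩ ⟨_, h6, _⟩
      linarith
    rw [e1, card_union_of_disjoint k1]
    push_cast
    ring
  have hd4 : |((((range w).filter (fun s => T^[s] m % M = r)).card : ℕ) : ℝ) - pr * w| ≤ ε / 4 * w := by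
    have e : Sw (fun m => (if ((m : ℕ) : ZMod M) = (r : ZMod M) then (1 : ℂ) else 0) - pr) w m =
        ((((((range w).filter (fun s => T^[s] m % M = r)).card : ℕ) : ℝ) - pr * w : ℝ) : ℂ) := by
      unfold Sw
      simp only [sum_sub_distrib, sum_const, card_range, nsmul_eq_mul]
      push_cast
      rw [mul_comm (w : ℂ)]
      congr 1
      rw [card_filter]
      push_cast
      apply sum_congr rfl
      intro s _
      have : (((T^[s] m : ℕ) : ZMod M) = (r : ZMod M)) ↔ T^[s] m % M = r := by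
        rw [ZMod.natCast_eq_natCast_iff', Nat.mod_eq_of_lt hr]
      simp only [this]
    rw [e, Complex.norm_real, Real.norm_eq_abs] at c4
    exact c4
  rw [htot] at hd4
  rw [abs_le] at hd4 ⊢
  rw [sub_zero] at c1
  have hw0 : (0 : ℝ) ≤ w := Nat.cast_nonneg _
  constructor
  · nlinarith [hd4.1]
  · nlinarith

end Pool.Agent.V11311.BW
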